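import Mathlib
import Pool.Agent.H859.ST.Final

/-!
# The kernel of the Stolz index map for groups with torsion

Let `Γ` be a countable discrete group (finite or infinite), `X` a `Γ`-space, for instance the universal
proper `Γ`-space, and `Θ : R_0^spin(X)^Γ[𝔅⁻¹] → KO_0(C*_r(Γ; ℝ)) = K_0(C*_r(Γ; ℝ))` the index map. The
theorem says that `Θ` has an infinite kernel, and so is not injective, for every `Γ` which has a finite
subgroup that is not cyclic of odd order; for instance for every group with an element of order two, and
for every group which contains `ℤ/p × ℤ/p` for some prime `p`. (For torsion-free groups the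
question is the Stolz conjecture.) For finite subgroups which are cyclic of odd order see (2) below.

## The definitions

* `Triple Γ X n`, `Bordant`, `IsProduct`, `RLim Γ X 𝔅 n` (in `Pool.Graph…N774.Stolz.Defs`, from an earlier
  run): the triples `(L, f, h)`, the equivalence relation given by the conditions (a) and (b), the
  product with `𝔅`, and the direct limit `R_n^spin(X)^Γ[𝔅⁻¹]`, for all groups `Γ` and all `n`. The
  manifolds are second countable, which is no restriction for countable `Γ`.
* `Factor`: a closed, simply connected, scalar flat spin manifold of dimension `8`, for instance a Bott
  manifold. `L.cls 𝔅` is the class of a triple of dimension `0`, and `Quot.mk _ ⟨k, N⟩` is the class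
  in `R_0^spin(X)^Γ[𝔅⁻¹]` of a triple `N` of dimension `8 k`.
The other definitions are in `Pool.Agent.H859.ST.Stmt`.

* `CRed Γ`: the real reduced group `C*`-algebra `C*_r(Γ; ℝ)`, the norm closure of the span of the left
  translations in the bounded operators of `ℓ²(Γ; ℝ)`, and `incl Γ : ℝ[Γ] → C*_r(Γ; ℝ)`. `K0` is the
  Grothendieck group of the finitely generated projective modules (`FGP`).
* `IsIndexOnPoints (incl Γ) 𝔅 Θ`: the values of `Θ` on the classes of the closed manifolds of
  dimension `0` are the higher indices `[C*_r ⊗ V] - [C*_r ⊗ W]`, where `V` and `W` are the
  `ℝ[Γ]`-modules of the compactly supported spinors over the positively and over the negatively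
  oriented points (`IsCompactSpinors`), and the tensor products over `ℝ[Γ]` are given by their
  universal property (`IsBaseChangeOf`). This is the only property of `Θ` which is used. For the relative
  higher index of the spin Dirac operator it holds by definition, since the Dirac operator of a closed
  manifold of dimension `0` is zero.
* `germ N x`: the set of the elements of `Γ` which fix `x` and all tangent vectors at `x`; for a
  proper smooth action these are the elements which act trivially near `x`.
* `IsOrbit G x₀ L`: the triple `L` of dimension `0` is the orbit `Γ / G`, positively oriented, with the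
  trivial action of the stabilisers on the spin structure, and the map `g G ↦ g x₀` to `X`.

## The proof

Let `Q` be a property of sets of elements of `Γ` which is invariant under conjugation. In every
`Γ`-manifold the points `x` for which `germ x` has the property `Q` form a union of components. If the
orientation of this part is reversed, and nothing else is changed, one gets a well defined map `rev`
of `R_n^spin(X)^Γ[𝔅⁻¹]` to itself (the metrics, the bordisms and the product with `𝔅` are not affected).
The property used is that `germ x` has `|G|` elements. By an argument of Artin there are, for every
finite group `G` which is not cyclic, two finite `G`-sets `T`, `T'` with isomorphic real permutation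
modules such that `G` has a fixed point in `T` but not in `T'`; and for the group of order two the
regular module is the sum of the trivial and the sign character, that is the module of spinors of two
fixed points. Let `c_a` be the class of `a` copies of `Γ ×_G T` and `a` copies of `Γ ×_G T'` with the
opposite orientation. Then `Θ(c_a) = 0`, but `rev` reverses the orientation of the points over the
fixed points of `G` only, so that the trace of `Θ(rev(c_a))` is a nonzero multiple of `a`. Here the
trace on `K_0(C*_r(Γ; ℝ))` is the one given by the canonical trace of `C*_r(Γ; ℝ)`. Hence the classes
`c_a` are distinct elements of the kernel.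

(2) is the same argument for one orbit. A manifold `N` as in (2) exists on paper for every nontrivial
finite subgroup `G`: `N = Γ ×_G 𝔅^G`, where `G` permutes the factors of `𝔅^G`; the spinors of `𝔅^G` in the
kernel of the Dirac operator form a space of dimension one, on which `G` acts trivially for a
suitable choice of the action on the spin structure. So `Θ` should not be injective for any group with
torsion; the index of this manifold is not computed here.
-/

set_option autoImplicit false

namespace Pool.Agent.Results.MP_8db816_gt.InfiniteKernel

open Pool.Agent.N774.Stolz Pool.Agent.H859.ST

/-- Let `Γ` be a countable group, `G` a finite subgroup of `Γ`, `X` a `Γ`-space with a point `x₀` fixed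
by `G` (for instance the universal proper `Γ`-space), `𝔅` a closed, simply connected, scalar flat spin
manifold of dimension `8` (for instance a Bott manifold), and
`Θ : R_0^spin(X)^Γ[𝔅⁻¹] → K_0(C*_r(Γ; ℝ))` a map whose values on the classes of the closed manifolds of
dimension `0` are the higher indices.

(1) If `G` is not a cyclic group of odd order, then infinitely many classes are mapped to `0` by
`Θ`, and `Θ` is not injective.

(2) There is a triple `L` of dimension `0` which is the orbit `Γ / G` (positively oriented, with
trivial action of the stabilisers on the spin structure), such that for all `k` and all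
triples `N` of dimension `8 k` in which for no point `x` the group of the elements of `Γ`
which act trivially near `x` has the order of `G`, the class of `N` is different from the class of `L`. In
particular, if `N` and `L` have the same image under `Θ`, then `Θ` is not injective. -/
theorem result (Γ : Type) [Group Γ] [Countable Γ] (G : Subgroup Γ) [Finite G] (B : Factor)
    (X : Type) [TopologicalSpace X] [MulAction Γ X] (x₀ : X) (hx₀ : ∀ g ∈ G, g • x₀ = x₀)
    (Θ : RLim Γ X B 0 → K0 (CRed Γ)) (hΘ : IsIndexOnPoints (incl Γ) B Θ) :
    (¬ (IsCyclic G ∧ Odd (Nat.card G)) →
      {c : RLim Γ X B 0 | Θ c = 0}.Infinite ∧ ¬ Function.Injective Θ) ∧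
    (∃ L : Triple Γ X 0, IsOrbit G x₀ L ∧ ∀ (k : ℕ) (N : Triple Γ X (0 + 8 * k)),
      (∀ x : N.carrier, Nat.card (germ N.toSpinMfd x) ≠ Nat.card G) →
      (Quot.mk _ ⟨k, N⟩ : RLim Γ X B 0) ≠ L.cls B ∧
      (Θ (Quot.mk _ ⟨k, N⟩) = Θ (L.cls B) → ¬ Function.Injective Θ)) := by
  refine ⟨fun hG => ?_, orbit G x₀ hx₀, isOrbit_orbit G x₀ hx₀, fun k N hN => ?_⟩
  · have h := kernel_infinite G x₀ hx₀ (incl Γ) B Θ hΘ (tau Γ) (tau_trace Γ) (tau_incl Γ) hG
    exact ⟨h, not_injective_of_infinite B Θ h⟩
  · have h := orbit_ne G x₀ hx₀ (incl Γ) B Θ hΘ (tau Γ) (tau_trace Γ) (tau_incl Γ) k N hN
    exact ⟨h, fun h1 hinj => h (hinj h1)⟩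

end Pool.Agent.Results.MP_8db816_gt.InfiniteKernel
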